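import Pool.Agent.Helper19K9.Frob.AsEx

/-!
# Rank equals order of vanishing, of unbounded size, for a family of curves attached to Frobenius
conjugates, over function fields of curves of every genus: the additive case

The elliptic curves `y ^ 2 = x (x + δ ^ (p + 1)) (x + s (s - (δ ^ p - δ)))` with `s = h ^ p - h`.
-/

set_option autoImplicit false
set_option linter.all false
set_option maxHeartbeats 4000000

open Polynomial Pool.Agent.W343.BSD Pool.Agent.W309.RK

namespace Pool.Agent.Results.MP_48b749_nt.FrobeniusArtinSchreier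

/-- `h` has exactly one zero, and it is a place of odd degree. -/
def OneZero (k : Type) {K : Type} [Field k] [Field K] [Algebra k K] (h : K) : Prop :=
  ∃ v : FF.Place k K, 0 < v.ord h ∧ Odd (S.deg v) ∧ ∀ w : FF.Place k K, 0 < w.ord h → w = v

/-- The conditions on the function `h`: each of the functions `1 / h`, `h - c` for `c` or `c - δ` in
the prime field, `h ^ p - h - δ ^ p` and `h ^ p - h + δ` has exactly one zero, at a place of odd
degree. -/
structure Conditions (k : Type) {K : Type} [Field k] [Field K] [Algebra k K] (p : ℕ) (δ : k)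
    (h : K) : Prop where
  pole : OneZero k h⁻¹
  shift : ∀ c : k, c ^ p = c ∨ (c - δ) ^ p = c - δ → OneZero k (h - algebraMap k K c)
  fib1 : OneZero k (h ^ p - h - algebraMap k K (δ ^ p))
  fib2 : OneZero k (h ^ p - h + algebraMap k K δ)

/-- The second root. -/
def rootA {k : Type} (K : Type) [Field k] [Field K] [Algebra k K] (p : ℕ) (δ : k) : K :=
  -(algebraMap k K δ) ^ (p + 1)

/-- The third root. -/
def rootB {k K : Type} [Field k] [Field K] [Algebra k K] (p : ℕ) (δ : k) (h : K) : K :=
  -((h ^ p - h) * (h ^ p - h - algebraMap k K (δ ^ p - δ)))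

/-- The first coefficient of `E_h`. -/
def coeffA {k K : Type} [Field k] [Field K] [Algebra k K] (p : ℕ) (δ : k) (h : K) : K :=
  -(rootA K p δ ^ 2 - rootA K p δ * rootB p δ h + rootB p δ h ^ 2) / 3

/-- The second coefficient of `E_h`. -/
def coeffB {k K : Type} [Field k] [Field K] [Algebra k K] (p : ℕ) (δ : k) (h : K) : K :=
  (rootA K p δ + rootB p δ h) * (2 * rootA K p δ - rootB p δ h) *
    (2 * rootB p δ h - rootA K p δ) / 27

/-- The curve `E_h : y ^ 2 = x (x - A) (x - B)` with `A = - δ ^ (p + 1)` and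
`B = - s (s - (δ ^ p - δ))`, `s = h ^ p - h`, in short form `y ^ 2 = x ^ 3 + a x + b` (with `x`
replaced by `x + (A + B) / 3`). -/
def curve {k K : Type} [Field k] [Field K] [Algebra k K] (p : ℕ) (δ : k) (h : K) :
    WeierstrassCurve K :=
  ⟨0, 0, 0, coeffA p δ h, coeffB p δ h⟩

open Classical in
/-- `E_h` is an elliptic curve whose `j`-invariant `6912 a ^ 3 / (4 a ^ 3 + 27 b ^ 2)` is not in `k`, with
`ρ` linearly independent points over `K`; its `L`-function vanishes at `T = 1 / |k|` to order at most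
`ρ`: if it is `(1 - |k| T) ^ M G(T)` with `G` in `ℤ[T]`, then `M ≤ ρ`. If it is a polynomial with order
of vanishing `r` and the rank is at most `r`, then the rank and `r` are equal to `ρ`. -/
def RankAndOrder (k : Type) {K : Type} [Field k] [Finite k] [Field K] [Algebra k K] (ρ p : ℕ)
    (δ : k) (h : K) : Prop :=
  4 * coeffA p δ h ^ 3 + 27 * coeffB p δ h ^ 2 ≠ 0 ∧
  (∀ c : k, 6912 * coeffA p δ h ^ 3 / (4 * coeffA p δ h ^ 3 + 27 * coeffB p δ h ^ 2) ≠
    algebraMap k K c) ∧
  (∃ P : Fin ρ → (curve p δ h).toAffine.Point, LinearIndependent ℤ P) ∧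
  (∀ M : ℕ, S.VanishesTo k (coeffA p δ h) (coeffB p δ h) M → M ≤ ρ) ∧
  ∀ r : ℕ, Pool.Agent.W313.Gr.HasOrder k (coeffA p δ h) (coeffB p δ h) r →
    Module.rank ℤ (curve p δ h).toAffine.Point ≤ r →
      r = ρ ∧ Module.rank ℤ (curve p δ h).toAffine.Point = ρ

/-- (1) Let `k` be a finite field with `p ^ m` elements, `p ≥ 5` a prime, let `δ` in `k` have nonzero
trace in the prime field, and let `ρ = p - 1` if `δ` is in the prime field and `ρ = 2 p - 1` if not.
Let `K` be the function field of a curve over `k` with constant field `k` and odd class number, and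
let `h` in `K` satisfy the conditions. Then the elliptic curve
`y ^ 2 = x (x + δ ^ (p + 1)) (x + s (s - (δ ^ p - δ)))` with `s = h ^ p - h` has at least `ρ`
independent points over `K`, and its `L`-function vanishes at `T = 1 / |k|` to order at most `ρ`; if
the rank is at most the order, both are `ρ`.

(2) For every prime `p ≥ 5` there are `k`, with `p ^ 6` elements, and such `δ` in the prime field and
outside the prime field, such that for `K = k(t)` the conditions on `K` hold and those on `h` hold,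
for both `δ`, for polynomials `h` of arbitrarily large degree. -/
theorem result :
    (∀ (p m : ℕ) (k K : Type) [Field k] [Finite k] [Field K] [Algebra k K] (δ : k),
      p.Prime → 5 ≤ p → Nat.card k = p ^ m → ∑ i ∈ Finset.range m, δ ^ p ^ i ≠ 0 →
      IsCurveField k K → Odd (S.classNumber k K) → ∀ h : K, Conditions k p δ h →
        (δ ^ p = δ → RankAndOrder k (p - 1) p δ h) ∧
        (δ ^ p ≠ δ → RankAndOrder k (2 * p - 1) p δ h)) ∧
    ∀ p : ℕ, p.Prime → 5 ≤ p →
      ∃ (k : Type) (_ : Field k) (_ : Finite k) (δ₁ δ₂ : k), Nat.card k = p ^ 6 ∧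
        ∑ i ∈ Finset.range 6, δ₁ ^ p ^ i ≠ 0 ∧ δ₁ ^ p = δ₁ ∧
        ∑ i ∈ Finset.range 6, δ₂ ^ p ^ i ≠ 0 ∧ δ₂ ^ p ≠ δ₂ ∧
        IsCurveField k (RatFunc k) ∧ Odd (S.classNumber k (RatFunc k)) ∧
        ∀ N : ℕ, ∃ h : k[X], N ≤ h.natDegree ∧
          Conditions k p δ₁ (algebraMap k[X] (RatFunc k) h) ∧
          Conditions k p δ₂ (algebraMap k[X] (RatFunc k) h) := by
  refine ⟨?_, ?_⟩
  · intro p m k K _ _ _ _ δ hp hp5 hcard htr hK hcl h hA
    haveI : FF.IsFF k K := ⟨hK.essFiniteType, hK.trdeg_eq_one⟩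
    haveI : CharP k p := charP_of_card hp hcard
    have h6k : (6 : k) ≠ 0 := Pool.Agent.TH958.T4.six_ne hp hp5
    have h3k : (3 : k) ≠ 0 := fun e => h6k (by linear_combination 2 * e)
    have h3K : (3 : K) ≠ 0 := by
      have : algebraMap k K 3 ≠ 0 := by simpa using h3k
      rwa [map_ofNat] at this
    have h27K : (27 : K) ≠ 0 := by
      have : (27 : K) = 3 ^ 3 := by norm_num
      rw [this]
      exact pow_ne_zero 3 h3K
    have hm : 1 ≤ m := by
      rcases Nat.eq_zero_or_pos m with h0 | h0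
      · rw [h0, Finset.sum_range_zero] at htr
        exact absurd rfl htr
      · exact h0
    rw [← Helper19K9.Frob.lamv_sum' p δ hm] at htr
    have eA : Helper19K9.Frob.aA K δ (δ ^ p) = rootA K p δ := by
      rw [Helper19K9.Frob.aA_eq, map_neg, map_mul, map_pow]
      unfold rootA
      ring
    have eB : Helper19K9.Frob.aB δ (δ ^ p) (h ^ p - h) = rootB p δ h := by
      rw [Helper19K9.Frob.aB_eq]
      unfold rootB
      ring
    have ha : aOf (Helper19K9.Frob.aA K δ (δ ^ p))
        (Helper19K9.Frob.aB δ (δ ^ p) (h ^ p - h)) = coeffA p δ h := by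
      rw [eA, eB]
      unfold aOf coeffA
      field_simp
      ring
    have hb : bOf (Helper19K9.Frob.aA K δ (δ ^ p))
        (Helper19K9.Frob.aB δ (δ ^ p) (h ^ p - h)) = coeffB p δ h := by
      rw [eA, eB]
      unfold bOf coeffB
      field_simp
      ring
    obtain ⟨⟨h1, h2⟩, h3, h4, h5⟩ := Helper19K9.Frob.amain hp hp5 hcard htr hK.algClosed hcl
      (h := h) ⟨hA.pole, hA.shift, hA.fib1, hA.fib2⟩
    rw [ha, hb] at h1 h2 h3 h4 h5
    constructor
    · intro he
      rw [if_pos he] at h3 h4 h5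
      exact ⟨h1, fun c hc => h2 c ((div_eq_iff h1).1 hc), h3, h4, h5⟩
    · intro he
      rw [if_neg he] at h3 h4 h5
      exact ⟨h1, fun c hc => h2 c ((div_eq_iff h1).1 hc), h3, h4, h5⟩
  · intro p hp hp5
    obtain ⟨k, i1, i2, δ₁, δ₂, h1, h2, h3, h4, h5, h6, h7, h8⟩ :=
      Helper19K9.Frob.as_exist hp hp5
    rw [Helper19K9.Frob.lamv_sum' p _ (by norm_num)] at h2 h4
    refine ⟨k, i1, i2, δ₁, δ₂, h1, h2, h3, h4, h5, h6, h7, fun N => ?_⟩
    obtain ⟨h, g1, g2, g3⟩ := h8 N
    exact ⟨h, g1, ⟨g2.pole, g2.shift, g2.fib1, g2.fib2⟩, ⟨g3.pole, g3.shift, g3.fib1, g3.fib2⟩⟩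

end Pool.Agent.Results.MP_48b749_nt.FrobeniusArtinSchreier
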