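import Pool.Agent.Helper19K9.Frob.HEx

/-!
# Rank equals order of vanishing, equal to `Q`, for the curves
`y ^ 2 = (x - h) (x - h ^ Q) (x - β) (x - β ^ Q)`

In Weierstrass form `y ^ 2 = x (x + (h - β) ^ (Q + 1)) (x + (h ^ Q - h) (β ^ Q - β))`, `Q` any power
of the characteristic such that the field of constants contains a field with `Q` elements.
-/

set_option autoImplicit false
set_option linter.all false
set_option maxHeartbeats 4000000

open Polynomial Pool.Agent.W343.BSD Pool.Agent.W309.RK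

namespace Pool.Agent.Results.MP_48b749_nt.FrobeniusGraph

/-- `h` has exactly one zero, and it is a place of odd degree. -/
def OneZero (k : Type) {K : Type} [Field k] [Field K] [Algebra k K] (h : K) : Prop :=
  ∃ v : FF.Place k K, 0 < v.ord h ∧ Odd (S.deg v) ∧ ∀ w : FF.Place k K, 0 < w.ord h → w = v

/-- The conditions on the function `h`: each of the functions `1 / h` and `h - c`, for `c ^ Q = c` and
for `c = b`, `b ^ Q`, `b ^ (Q ^ 2)`, has exactly one zero, at a place of odd degree. -/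
structure Conditions (k : Type) {K : Type} [Field k] [Field K] [Algebra k K] (Q : ℕ) (b : k)
    (h : K) : Prop where
  pole : OneZero k h⁻¹
  shift : ∀ c : k, c ^ Q = c ∨ c = b ∨ c = b ^ Q ∨ c = b ^ Q ^ 2 →
    OneZero k (h - algebraMap k K c)

/-- The second root, with `β = b ^ Q`. -/
def rootA {k K : Type} [Field k] [Field K] [Algebra k K] (Q : ℕ) (b : k) (h : K) : K :=
  -(h - algebraMap k K (b ^ Q)) ^ (Q + 1)

/-- The third root, with `β = b ^ Q`. -/
def rootB {k K : Type} [Field k] [Field K] [Algebra k K] (Q : ℕ) (b : k) (h : K) : K :=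
  -((h ^ Q - h) * algebraMap k K (b ^ Q ^ 2 - b ^ Q))

/-- The first coefficient of `E_h`. -/
def coeffA {k K : Type} [Field k] [Field K] [Algebra k K] (Q : ℕ) (b : k) (h : K) : K :=
  -(rootA Q b h ^ 2 - rootA Q b h * rootB Q b h + rootB Q b h ^ 2) / 3

/-- The second coefficient of `E_h`. -/
def coeffB {k K : Type} [Field k] [Field K] [Algebra k K] (Q : ℕ) (b : k) (h : K) : K :=
  (rootA Q b h + rootB Q b h) * (2 * rootA Q b h - rootB Q b h) *
    (2 * rootB Q b h - rootA Q b h) / 27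

/-- The curve `E_h : y ^ 2 = x (x - A) (x - B)` with `A = - (h - β) ^ (Q + 1)` and
`B = - (h ^ Q - h) (β ^ Q - β)`, `β = b ^ Q`, in short form `y ^ 2 = x ^ 3 + a x + b` (with `x`
replaced by `x + (A + B) / 3`). -/
def curve {k K : Type} [Field k] [Field K] [Algebra k K] (Q : ℕ) (b : k) (h : K) :
    WeierstrassCurve K :=
  ⟨0, 0, 0, coeffA Q b h, coeffB Q b h⟩

open Classical in
/-- `E_h` is an elliptic curve whose `j`-invariant `6912 a ^ 3 / (4 a ^ 3 + 27 b ^ 2)` is not in `k`, with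
`ρ` linearly independent points over `K`; its `L`-function vanishes at `T = 1 / |k|` to order at most
`ρ`: if it is `(1 - |k| T) ^ M G(T)` with `G` in `ℤ[T]`, then `M ≤ ρ`. If it is a polynomial with order
of vanishing `r` and the rank is at most `r`, then the rank and `r` are equal to `ρ`. -/
def RankAndOrder (k : Type) {K : Type} [Field k] [Finite k] [Field K] [Algebra k K] (ρ Q : ℕ)
    (b : k) (h : K) : Prop :=
  4 * coeffA Q b h ^ 3 + 27 * coeffB Q b h ^ 2 ≠ 0 ∧
  (∀ c : k, 6912 * coeffA Q b h ^ 3 / (4 * coeffA Q b h ^ 3 + 27 * coeffB Q b h ^ 2) ≠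
    algebraMap k K c) ∧
  (∃ P : Fin ρ → (curve Q b h).toAffine.Point, LinearIndependent ℤ P) ∧
  (∀ M : ℕ, S.VanishesTo k (coeffA Q b h) (coeffB Q b h) M → M ≤ ρ) ∧
  ∀ r : ℕ, Pool.Agent.W313.Gr.HasOrder k (coeffA Q b h) (coeffB Q b h) r →
    Module.rank ℤ (curve Q b h).toAffine.Point ≤ r →
      r = ρ ∧ Module.rank ℤ (curve Q b h).toAffine.Point = ρ

/-- (1) Let `k` be a finite field with `p ^ m` elements, `p ≥ 5` a prime, `ν` a divisor of `m`,
`Q = p ^ ν`, let `b` in `k` be such that `b ^ Q ≠ b`, and let `ρ = Q - 1` if `b ^ (Q ^ 2) = b` and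
`ρ = Q` if not. Let `K` be the function field of a curve over `k` with constant field `k` and odd
class number, and let `h` in `K` satisfy the conditions. Then the elliptic curve
`y ^ 2 = x (x + (h - β) ^ (Q + 1)) (x + (h ^ Q - h) (β ^ Q - β))` with `β = b ^ Q` has at least `ρ`
independent points over `K`, and its `L`-function vanishes at `T = 1 / |k|` to order at most `ρ`; if
the rank is at most the order, both are `ρ`.

(2) For every prime `p ≥ 5` and every `ν ≥ 1` there are `k` and such `b` of both kinds, such that for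
`K = k(t)` the conditions on `K` hold and those on `h` hold, for both `b`, for polynomials `h` of
arbitrarily large degree. -/
theorem result :
    (∀ (p ν m : ℕ) (k K : Type) [Field k] [Finite k] [Field K] [Algebra k K] (b : k),
      p.Prime → 5 ≤ p → 1 ≤ ν → ν ∣ m → Nat.card k = p ^ m → b ^ p ^ ν ≠ b →
      IsCurveField k K → Odd (S.classNumber k K) → ∀ h : K, Conditions k (p ^ ν) b h →
        (b ^ (p ^ ν) ^ 2 = b → RankAndOrder k (p ^ ν - 1) (p ^ ν) b h) ∧
        (b ^ (p ^ ν) ^ 2 ≠ b → RankAndOrder k (p ^ ν) (p ^ ν) b h)) ∧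
    ∀ p ν : ℕ, p.Prime → 5 ≤ p → 1 ≤ ν →
      ∃ (k : Type) (_ : Field k) (_ : Finite k) (m : ℕ) (b₁ b₂ : k), Nat.card k = p ^ m ∧ ν ∣ m ∧
        b₁ ^ p ^ ν ≠ b₁ ∧ b₁ ^ (p ^ ν) ^ 2 ≠ b₁ ∧ b₂ ^ p ^ ν ≠ b₂ ∧ b₂ ^ (p ^ ν) ^ 2 = b₂ ∧
        IsCurveField k (RatFunc k) ∧ Odd (S.classNumber k (RatFunc k)) ∧
        ∀ N : ℕ, ∃ h : k[X], N ≤ h.natDegree ∧
          Conditions k (p ^ ν) b₁ (algebraMap k[X] (RatFunc k) h) ∧
          Conditions k (p ^ ν) b₂ (algebraMap k[X] (RatFunc k) h) := by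
  have hsq : ∀ {k : Type} [Field k] (b : k) (Q : ℕ), b ^ Q ^ 2 = (b ^ Q) ^ Q := by
    intro k _ b Q
    rw [pow_two, pow_mul]
  refine ⟨?_, ?_⟩
  · intro p ν m k K _ _ _ _ b hp hp5 hν hνm hcard hb hK hcl h hA
    haveI : FF.IsFF k K := ⟨hK.essFiniteType, hK.trdeg_eq_one⟩
    haveI : Fact p.Prime := ⟨hp⟩
    haveI : CharP k p := charP_of_card hp hcard
    have h6k : (6 : k) ≠ 0 := Pool.Agent.TH958.T4.six_ne hp hp5
    have h3k : (3 : k) ≠ 0 := fun e => h6k (by linear_combination 2 * e)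
    have h3K : (3 : K) ≠ 0 := by
      have : algebraMap k K 3 ≠ 0 := by simpa using h3k
      rwa [map_ofNat] at this
    have h27K : (27 : K) ≠ 0 := by
      have : (27 : K) = 3 ^ 3 := by norm_num
      rw [this]
      exact pow_ne_zero 3 h3K
    have eA : Helper19K9.Frob.hA (p ^ ν) (b ^ p ^ ν) ((b ^ p ^ ν) ^ p ^ ν) h = rootA (p ^ ν) b h := by
      rw [Helper19K9.Frob.hA_eq rfl]
      rfl
    have eB : Helper19K9.Frob.hB (p ^ ν) (b ^ p ^ ν) ((b ^ p ^ ν) ^ p ^ ν) h = rootB (p ^ ν) b h := by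
      rw [Helper19K9.Frob.hB_eq]
      unfold rootB
      rw [hsq, map_sub, map_sub]
      ring
    have ha : aOf (Helper19K9.Frob.hA (p ^ ν) (b ^ p ^ ν) ((b ^ p ^ ν) ^ p ^ ν) h)
        (Helper19K9.Frob.hB (p ^ ν) (b ^ p ^ ν) ((b ^ p ^ ν) ^ p ^ ν) h) = coeffA (p ^ ν) b h := by
      rw [eA, eB]
      unfold aOf coeffA
      field_simp
      ring
    have hb' : bOf (Helper19K9.Frob.hA (p ^ ν) (b ^ p ^ ν) ((b ^ p ^ ν) ^ p ^ ν) h)
        (Helper19K9.Frob.hB (p ^ ν) (b ^ p ^ ν) ((b ^ p ^ ν) ^ p ^ ν) h) = coeffB (p ^ ν) b h := by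
      rw [eA, eB]
      unfold bOf coeffB
      field_simp
      ring
    obtain ⟨⟨h1, h2⟩, h3, h4, h5⟩ := Helper19K9.Frob.hmain hp hp5 hν hcard hνm (b := b) rfl rfl hb
      hK.algClosed hcl (h := h) ⟨hA.pole, fun c hc => hA.shift c (by rw [hsq]; exact hc)⟩
    rw [ha, hb'] at h1 h2 h3 h4 h5
    rw [hsq]
    constructor
    · intro he
      rw [if_pos he] at h3 h4 h5
      exact ⟨h1, fun c hc => h2 c ((div_eq_iff h1).1 hc), h3, h4, h5⟩
    · intro he
      rw [if_neg he] at h3 h4 h5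
      exact ⟨h1, fun c hc => h2 c ((div_eq_iff h1).1 hc), h3, h4, h5⟩
  · intro p ν hp hp5 hν
    obtain ⟨k, i1, i2, b₁, b₂, h1, h2, h3, h4, h5, h6, h7, h8⟩ :=
      Helper19K9.Frob.h_exist hp hp5 hν
    refine ⟨k, i1, i2, ν * 18, b₁, b₂, h1, dvd_mul_right _ _, h2, by rw [hsq]; exact h3, h4,
      by rw [hsq]; exact h5, h6, h7, fun N => ?_⟩
    obtain ⟨h, g1, g2, g3⟩ := h8 N
    exact ⟨h, g1, ⟨g2.pole, fun c hc => g2.shift c (by rw [hsq] at hc; exact hc)⟩,
      ⟨g3.pole, fun c hc => g3.shift c (by rw [hsq] at hc; exact hc)⟩⟩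

end Pool.Agent.Results.MP_48b749_nt.FrobeniusGraph
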