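import Pool.Agent.Helper19K9.Frob.NsEx

/-!
# Rank equals order of vanishing, of unbounded size, for a second family of curves attached to
Frobenius conjugates (the nonsplit case), over function fields of curves of every genus

The elliptic curves `y ^ 2 = x (x + (1 - γ) (1 - γ') h ^ d) (x + (h ^ d - 1) (γ h ^ d - γ'))`, where
`γ` is a square and `γ' = γ ^ (-Q)`, `Q = p ^ ν`, is not a conjugate of `γ`, for odd divisors `d` of
`Q + 1`. (If `γ'` is a conjugate of `γ` they are in the family of `FrobeniusKummer`.) The points are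
sums over the solutions `z` of `h ^ d z ^ (Q + 1) = 1`.
-/

set_option autoImplicit false
set_option linter.all false
set_option maxHeartbeats 4000000

open Polynomial Pool.Agent.W343.BSD Pool.Agent.W309.RK

namespace Pool.Agent.Results.MP_48b749_nt.FrobeniusNonsplit

/-- The conditions on the constants: `k` has `p ^ m` elements, `p ≥ 5` is a prime, `d` is odd and divides
`p ^ ν + 1` and `p ^ m - 1`; `γ' = γ ^ (- p ^ ν)` is not a conjugate `γ ^ (p ^ i)` of `γ` over the prime
field, `γ γ' ≠ 1`, and `γ` in `k` is a square, but not an `l`-th power in `k` for any prime `l`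
dividing `d`. -/
structure Constants (k : Type) [Field k] (p m ν d : ℕ) (γ γ' : k) : Prop where
  prime : p.Prime
  five_le : 5 ≤ p
  card : Nat.card k = p ^ m
  pos : 1 ≤ ν
  odd : Odd d
  dvd : d ∣ p ^ ν + 1
  dvd_card : d ∣ p ^ m - 1
  mul_eq : γ ^ p ^ ν * γ' = 1
  not_conj : ∀ i : ℕ, γ ^ p ^ i ≠ γ'
  mul_ne_one : γ * γ' ≠ 1
  square : ∃ x : k, x ^ 2 = γ
  not_pow : ∀ l : ℕ, l.Prime → l ∣ d → ∀ x : k, x ^ l ≠ γ

/-- `h` has exactly one zero, and it is a place of odd degree. -/
def OneZero (k : Type) {K : Type} [Field k] [Field K] [Algebra k K] (h : K) : Prop :=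
  ∃ v : FF.Place k K, 0 < v.ord h ∧ Odd (S.deg v) ∧ ∀ w : FF.Place k K, 0 < w.ord h → w = v

/-- The conditions on the function `h`: each of the functions `h`, `1 / h`, `h - c` for `c ^ d = 1` or
`γ c ^ d = γ'`, `h ^ d - γ'` and `γ h ^ d - 1` has exactly one zero, at a place of odd degree. -/
structure Conditions (k : Type) {K : Type} [Field k] [Field K] [Algebra k K] (d : ℕ) (γ γ' : k)
    (h : K) : Prop where
  zero : OneZero k h
  pole : OneZero k h⁻¹
  shift : ∀ c : k, c ^ d = 1 ∨ γ * c ^ d = γ' → OneZero k (h - algebraMap k K c)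
  fib1 : OneZero k (h ^ d - algebraMap k K γ')
  fib2 : OneZero k (algebraMap k K γ * h ^ d - 1)

/-- The second root. -/
def rootA {k K : Type} [Field k] [Field K] [Algebra k K] (d : ℕ) (γ γ' : k) (h : K) : K :=
  -((1 - algebraMap k K γ) * (1 - algebraMap k K γ') * h ^ d)

/-- The third root. -/
def rootB {k K : Type} [Field k] [Field K] [Algebra k K] (d : ℕ) (γ γ' : k) (h : K) : K :=
  -((h ^ d - 1) * (algebraMap k K γ * h ^ d - algebraMap k K γ'))

/-- The first coefficient of `E_h`. -/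
def coeffA {k K : Type} [Field k] [Field K] [Algebra k K] (d : ℕ) (γ γ' : k) (h : K) : K :=
  -(rootA d γ γ' h ^ 2 - rootA d γ γ' h * rootB d γ γ' h + rootB d γ γ' h ^ 2) / 3

/-- The second coefficient of `E_h`. -/
def coeffB {k K : Type} [Field k] [Field K] [Algebra k K] (d : ℕ) (γ γ' : k) (h : K) : K :=
  (rootA d γ γ' h + rootB d γ γ' h) * (2 * rootA d γ γ' h - rootB d γ γ' h) *
    (2 * rootB d γ γ' h - rootA d γ γ' h) / 27

/-- The curve `E_h : y ^ 2 = x (x - A) (x - B)` with `A = -(1 - γ) (1 - γ') h ^ d` and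
`B = -(h ^ d - 1) (γ h ^ d - γ')`, in short form `y ^ 2 = x ^ 3 + a x + b` (with `x` replaced by
`x + (A + B) / 3`). -/
def curve {k K : Type} [Field k] [Field K] [Algebra k K] (d : ℕ) (γ γ' : k) (h : K) :
    WeierstrassCurve K :=
  ⟨0, 0, 0, coeffA d γ γ' h, coeffB d γ γ' h⟩

open Classical in
/-- `E_h` is an elliptic curve whose `j`-invariant `6912 a ^ 3 / (4 a ^ 3 + 27 b ^ 2)` is not in `k`, with
`ρ` linearly independent points over `K`; its `L`-function vanishes at `T = 1 / |k|` to order at most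
`ρ`: if it is `(1 - |k| T) ^ M G(T)` with `G` in `ℤ[T]`, then `M ≤ ρ`. If it is a polynomial with order
of vanishing `r` and the rank is at most `r`, then the rank and `r` are equal to `ρ`. -/
def RankAndOrder (k : Type) {K : Type} [Field k] [Finite k] [Field K] [Algebra k K] (ρ d : ℕ)
    (γ γ' : k) (h : K) : Prop :=
  4 * coeffA d γ γ' h ^ 3 + 27 * coeffB d γ γ' h ^ 2 ≠ 0 ∧
  (∀ c : k, 6912 * coeffA d γ γ' h ^ 3 / (4 * coeffA d γ γ' h ^ 3 + 27 * coeffB d γ γ' h ^ 2) ≠
    algebraMap k K c) ∧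
  (∃ P : Fin ρ → (curve d γ γ' h).toAffine.Point, LinearIndependent ℤ P) ∧
  (∀ M : ℕ, S.VanishesTo k (coeffA d γ γ' h) (coeffB d γ γ' h) M → M ≤ ρ) ∧
  ∀ r : ℕ, Pool.Agent.W313.Gr.HasOrder k (coeffA d γ γ' h) (coeffB d γ γ' h) r →
    Module.rank ℤ (curve d γ γ' h).toAffine.Point ≤ r →
      r = ρ ∧ Module.rank ℤ (curve d γ γ' h).toAffine.Point = ρ

/-- (1) Let `k`, `p`, `m`, `ν`, `d`, `γ`, `γ'` be as in `Constants`. Let `K` be the function field of a
curve over `k` with constant field `k` and odd class number, and let `h` in `K` satisfy the conditions.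
Then the elliptic curve `y ^ 2 = x (x + (1 - γ) (1 - γ') h ^ d) (x + (h ^ d - 1) (γ h ^ d - γ'))` has at
least `2 d` independent points over `K`, and its `L`-function vanishes at `T = 1 / |k|` to order at most
`2 d`; if the rank is at most the order, both are `2 d`.

(2) For every prime `p ≥ 5`, all `ν ≥ 1` and all odd divisors `d` of `p ^ ν + 1` there are such `k`, `γ`
and `γ'` such that for `K = k(t)` the conditions on `K` hold and those on `h` hold for polynomials `h`
of arbitrarily large degree. -/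
theorem result :
    (∀ (p m ν d : ℕ) (k K : Type) [Field k] [Finite k] [Field K] [Algebra k K] (γ γ' : k),
      Constants k p m ν d γ γ' → IsCurveField k K → Odd (S.classNumber k K) →
      ∀ h : K, Conditions k d γ γ' h → RankAndOrder k (2 * d) d γ γ' h) ∧
    ∀ (p ν d : ℕ), p.Prime → 5 ≤ p → 1 ≤ ν → Odd d → d ∣ p ^ ν + 1 →
      ∃ (k : Type) (_ : Field k) (_ : Finite k) (m : ℕ) (γ γ' : k),
        Constants k p m ν d γ γ' ∧
        IsCurveField k (RatFunc k) ∧ Odd (S.classNumber k (RatFunc k)) ∧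
        ∀ N : ℕ, ∃ h : k[X], N ≤ h.natDegree ∧
          Conditions k d γ γ' (algebraMap k[X] (RatFunc k) h) := by
  refine ⟨?_, ?_⟩
  · intro p m ν d k K _ _ _ _ γ γ' hC hK hcl h hA
    haveI : FF.IsFF k K := ⟨hK.essFiniteType, hK.trdeg_eq_one⟩
    have h6k : (6 : k) ≠ 0 := by
      haveI : CharP k p := charP_of_card hC.prime hC.card
      exact Pool.Agent.TH958.T4.six_ne hC.prime hC.five_le
    have h3k : (3 : k) ≠ 0 := fun e => h6k (by linear_combination 2 * e)
    have h3K : (3 : K) ≠ 0 := by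
      have : algebraMap k K 3 ≠ 0 := by simpa using h3k
      rwa [map_ofNat] at this
    have h27K : (27 : K) ≠ 0 := by
      have : (27 : K) = 3 ^ 3 := by norm_num
      rw [this]
      exact pow_ne_zero 3 h3K
    have eA : Helper19K9.Frob.kA γ γ' (h ^ d) = rootA d γ γ' h := by
      rw [Helper19K9.Frob.kA_eq, map_neg, map_mul, map_sub, map_sub, map_one]
      unfold rootA
      ring
    have eB : Helper19K9.Frob.kB γ γ' (h ^ d) = rootB d γ γ' h := by
      rw [Helper19K9.Frob.kB_eq]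
      unfold rootB
      ring
    have ha : aOf (Helper19K9.Frob.kA γ γ' (h ^ d))
        (Helper19K9.Frob.kB γ γ' (h ^ d)) = coeffA d γ γ' h := by
      rw [eA, eB]
      unfold aOf coeffA
      field_simp
      ring
    have hb : bOf (Helper19K9.Frob.kA γ γ' (h ^ d))
        (Helper19K9.Frob.kB γ γ' (h ^ d)) = coeffB d γ γ' h := by
      rw [eA, eB]
      unfold bOf coeffB
      field_simp
      ring
    obtain ⟨g0, hg0⟩ := hC.square
    have hγ0 : γ ≠ 0 := by
      rintro rfl
      have := hC.mul_eq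
      rw [zero_pow (pow_ne_zero _ hC.prime.ne_zero), zero_mul] at this
      exact zero_ne_one this
    have hγ1 : γ ≠ 1 := by
      rintro rfl
      have h1 := hC.mul_eq
      rw [one_pow, one_mul] at h1
      exact hC.not_conj 0 (by rw [one_pow, h1])
    have hne : γ' ≠ γ := fun h1 => hC.not_conj 0 (by rw [pow_zero, pow_one, h1])
    obtain ⟨⟨h1, h2⟩, h3, h4, h5⟩ := Helper19K9.Frob.nmain hC.prime hC.five_le hC.pos hC.card
      hC.odd hC.dvd hC.dvd_card hγ0 hγ1 hC.mul_eq hg0 hC.mul_ne_one hC.not_pow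
      hK.algClosed hcl (h := h) ⟨hA.zero, hA.pole, hA.shift, hA.fib1, hA.fib2⟩
    rw [ha, hb] at h1 h2 h3 h4 h5
    rw [if_neg hne] at h3 h4 h5
    exact ⟨h1, fun c hc => h2 c ((div_eq_iff h1).1 hc), h3, h4, h5⟩
  · intro p ν d hp hp5 he hdo hde
    obtain ⟨k, i1, i2, m, γ, γ', h1, h2, h3, h4, h5, h6, h7, h8, h9, h10⟩ :=
      Helper19K9.Frob.ns_exist hp hp5 he hdo hde
    refine ⟨k, i1, i2, m, γ, γ', ⟨hp, hp5, h1, he, hdo, hde, h2, h4, h5, h6, h3, h7⟩, h8, h9,
      fun N => ?_⟩
    obtain ⟨h, g1, g2⟩ := h10 N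
    exact ⟨h, g1, ⟨g2.zero, g2.pole, g2.shift, g2.fib1, g2.fib2⟩⟩

end Pool.Agent.Results.MP_48b749_nt.FrobeniusNonsplit
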